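import Pool.Agent.Helper54_Exc.Stmts

/-! # EXC, module ARI -/

set_option autoImplicit false

namespace Pool.Agent.Helper54Exc.H81

open Filter Topology

/-- all large scales are returned at time `n ^ α` -/
def CC (P : Bool → ℝ → ℕ → ℝ → Prop) (α δ : ℝ) : Prop :=
  ∀ᶠ n : ℕ in atTop, ∀ c : Bool, P c ((n : ℝ) ^ α) n δ

theorem tendsto_pow {γ : ℝ} (hγ : 0 < γ) : Tendsto (fun n : ℕ => (n : ℝ) ^ γ) atTop atTop :=
  (tendsto_rpow_atTop hγ).comp tendsto_natCast_atTop_atTop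

theorem stepC {β : ℝ} {P : Bool → ℝ → ℕ → ℝ → Prop}
    (hstep : ∀ ε : ℝ, 0 < ε → ∃ K : ℝ, 1 ≤ K ∧ ∀ (c : Bool) (m n : ℕ) (s t δ : ℝ), K ≤ m →
      K * m ≤ n → K ≤ t → 0 ≤ s → s ≤ t → K * s ≤ n → K * (n : ℝ) ^ (β - 1) ≤ t * m → 0 ≤ δ →
      P (!c) s m δ → P c t n (δ + ε)) {α α' δ ε : ℝ} (h1 : 1 ≤ α) (h1' : 1 ≤ α')
    (hlt : β - 1 < α' + 1 / α) (hδ : 0 ≤ δ) (hε : 0 < ε) (hC : CC P α δ) :
    CC P α' (δ + ε) := by
  obtain ⟨K, hK1, hK⟩ := hstep ε hε
  have hK0 : 0 < K := by linarith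
  have hα0 : 0 < α := by linarith
  have hαi : 0 < 1 / α := by positivity
  have hαi1 : 1 / α ≤ 1 := by rw [div_le_one hα0]; exact h1
  -- the scale
  have hx : Tendsto (fun n : ℕ => ((n : ℝ) / K) ^ (1 / α)) atTop atTop := by
    refine (tendsto_rpow_atTop hαi).comp ?_
    exact tendsto_natCast_atTop_atTop.atTop_div_const hK0
  have hm : Tendsto (fun n : ℕ => ⌊((n : ℝ) / K) ^ (1 / α)⌋₊) atTop atTop :=
    tendsto_nat_floor_atTop.comp hx
  have hγ : 0 < α' + 1 / α - (β - 1) := by linarith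
  filter_upwards [hm.eventually hC, hx.eventually_ge_atTop 2, hx.eventually_ge_atTop (K + 1),
    eventually_ge_atTop ⌈K⌉₊, (tendsto_pow hγ).eventually_ge_atTop (2 * K * K ^ (1 / α))]
    with n hn1 hn2 hn3 hn4 hn5 c
  set x : ℝ := ((n : ℝ) / K) ^ (1 / α) with hxdef
  set m : ℕ := ⌊x⌋₊ with hmdef
  have hKn : K ≤ n := Nat.ceil_le.1 hn4
  have hn0 : (0 : ℝ) < n := by linarith
  have hn1' : (1 : ℝ) ≤ n := by linarith
  have hnK : 1 ≤ (n : ℝ) / K := by rw [le_div_iff₀ hK0]; linarith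
  have hx0 : 0 ≤ x := by linarith
  have hmx : (m : ℝ) ≤ x := Nat.floor_le hx0
  have hmx' : x < m + 1 := Nat.lt_floor_add_one x
  have hxle : x ≤ n / K := by
    calc x ≤ ((n : ℝ) / K) ^ (1 : ℝ) := Real.rpow_le_rpow_of_exponent_le hnK hαi1
      _ = n / K := Real.rpow_one _
  have hxα : x ^ α = n / K := by
    rw [hxdef, ← Real.rpow_mul (by positivity), one_div, inv_mul_cancel₀ hα0.ne', Real.rpow_one]
  have hs : (m : ℝ) ^ α ≤ n / K := by
    rw [← hxα]
    exact Real.rpow_le_rpow (by positivity) hmx hα0.le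
  have hKle : (n : ℝ) / K ≤ n := by
    rw [div_le_iff₀ hK0]; nlinarith
  have hnt : (n : ℝ) ≤ (n : ℝ) ^ α' := by
    calc (n : ℝ) = (n : ℝ) ^ (1 : ℝ) := (Real.rpow_one _).symm
      _ ≤ (n : ℝ) ^ α' := Real.rpow_le_rpow_of_exponent_le hn1' h1'
  refine hK c m n ((m : ℝ) ^ α) ((n : ℝ) ^ α') δ (by linarith) ?_ (by linarith) (by positivity)
    (by linarith) ?_ ?_ hδ (hn1 (!c))
  · have : (m : ℝ) ≤ n / K := by linarith
    rw [le_div_iff₀ hK0] at this
    linarith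
  · rw [le_div_iff₀ hK0] at hs
    linarith
  · have hm2 : x / 2 ≤ m := by linarith
    have e1 : (n : ℝ) ^ (α' + 1 / α - (β - 1)) * (n : ℝ) ^ (β - 1) =
        (n : ℝ) ^ α' * (n : ℝ) ^ (1 / α) := by
      rw [← Real.rpow_add hn0, ← Real.rpow_add hn0]
      congr 1; ring
    have e2 : x = (n : ℝ) ^ (1 / α) / K ^ (1 / α) := by
      rw [hxdef, Real.div_rpow hn0.le hK0.le]
    have hKp : 0 < K ^ (1 / α) := by positivity
    have hnp : 0 < (n : ℝ) ^ (β - 1) := by positivity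
    have hna : 0 < (n : ℝ) ^ α' := by positivity
    have e3 : 2 * K * K ^ (1 / α) * (n : ℝ) ^ (β - 1) ≤ (n : ℝ) ^ α' * (n : ℝ) ^ (1 / α) := by
      rw [← e1]
      exact mul_le_mul_of_nonneg_right hn5 hnp.le
    have e4 : (n : ℝ) ^ (1 / α) = x * K ^ (1 / α) := by
      rw [e2]; field_simp
    rw [e4] at e3
    have e5 : K * (n : ℝ) ^ (β - 1) ≤ (n : ℝ) ^ α' * (x / 2) := by
      have e6 : (2 * K ^ (1 / α)) * (K * (n : ℝ) ^ (β - 1)) ≤
          (2 * K ^ (1 / α)) * ((n : ℝ) ^ α' * (x / 2)) := by nlinarith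
      exact le_of_mul_le_mul_left e6 (by positivity)
    refine e5.trans ?_
    exact mul_le_mul_of_nonneg_left hm2 hna.le

theorem ari : AriStmt := by
  intro β P hβ2 hβ3 hmono hbase hstep hend
  set g : ℝ := (3 - β) / 2 with hg
  have hg0 : 0 < g := by rw [hg]; linarith
  obtain ⟨J, hJ⟩ := exists_nat_ge (1 / g)
  have hJg : 1 ≤ J * g := by
    rw [div_le_iff₀ hg0] at hJ; exact hJ
  set ε : ℝ := 1 / (4 * (J + 2)) with hε
  have hε0 : 0 < ε := by positivity
  -- base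
  have h0 : CC P 2 ε := by
    obtain ⟨K, hK1, hK⟩ := hbase ε hε0
    have h3 : 0 < 2 - (β - 1) := by linarith
    filter_upwards [(tendsto_pow h3).eventually_ge_atTop K, eventually_ge_atTop ⌈K⌉₊]
      with n hn1 hn2 c
    have hKn : K ≤ n := Nat.ceil_le.1 hn2
    have hn0 : (0 : ℝ) < n := by linarith
    have hn1' : (1 : ℝ) ≤ n := by linarith
    have hle : (n : ℝ) ≤ (n : ℝ) ^ (2 : ℝ) := by
      calc (n : ℝ) = (n : ℝ) ^ (1 : ℝ) := (Real.rpow_one _).symm
        _ ≤ (n : ℝ) ^ (2 : ℝ) := Real.rpow_le_rpow_of_exponent_le hn1' (by norm_num)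
    refine hK c n _ hKn (by linarith) ?_
    have e1 : (n : ℝ) ^ (2 : ℝ) = (n : ℝ) ^ (2 - (β - 1)) * (n : ℝ) ^ (β - 1) := by
      rw [← Real.rpow_add hn0]; congr 1; ring
    rw [e1]
    exact mul_le_mul_of_nonneg_right hn1 (by positivity)
  -- iteration
  have hiter : ∀ j : ℕ, CC P (max 1 (2 - j * g)) (ε * (j + 1)) := by
    intro j
    induction j with
    | zero =>
      have e1 : max (1 : ℝ) (2 - ((0 : ℕ) : ℝ) * g) = 2 := by norm_num
      have e2 : ε * (((0 : ℕ) : ℝ) + 1) = ε := by push_cast; ring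
      rw [e1, e2]; exact h0
    | succ j ih =>
      have h3 : 1 ≤ max 1 (2 - (j : ℝ) * g) := le_max_left _ _
      have h4 : 1 ≤ max 1 (2 - ((j + 1 : ℕ) : ℝ) * g) := le_max_left _ _
      have h5 : max 1 (2 - (j : ℝ) * g) - g ≤ max 1 (2 - ((j + 1 : ℕ) : ℝ) * g) := by
        rw [sub_le_iff_le_add]
        apply max_le
        · linarith
        · have := le_max_right 1 (2 - ((j + 1 : ℕ) : ℝ) * g)
          push_cast at this ⊢
          linarith
      have h6 : 2 ≤ max 1 (2 - (j : ℝ) * g) + 1 / max 1 (2 - (j : ℝ) * g) := by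
        have h7 : 0 < max 1 (2 - (j : ℝ) * g) := by linarith
        rw [← sub_nonneg]
        have h8 : max 1 (2 - (j : ℝ) * g) + 1 / max 1 (2 - (j : ℝ) * g) - 2 =
            (max 1 (2 - (j : ℝ) * g) - 1) ^ 2 / max 1 (2 - (j : ℝ) * g) := by
          field_simp; ring
        rw [h8]; positivity
      have h9 := stepC (ε := ε) hstep h3 h4 (by rw [hg] at h5 ⊢ h6; linarith)
        (by positivity) hε0 ih
      have e1 : ε * (j + 1) + ε = ε * (((j + 1 : ℕ) : ℝ) + 1) := by push_cast; ring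
      rw [e1] at h9
      exact h9
  have h1 : CC P 1 (ε * (J + 1)) := by
    have := hiter J
    rwa [max_eq_left (by linarith)] at this
  -- last step
  obtain ⟨K1, hK11, hK1⟩ := hstep ε hε0
  obtain ⟨K2, hK21, hK2⟩ := hend
  set a : ℝ := (β + 1) / 4 with ha
  have ha0 : 0 < a := by rw [ha]; linarith
  have ha1 : 0 < 1 - a := by rw [ha]; linarith
  have h2a : 0 < 2 * a - (β - 1) := by rw [ha]; linarith
  have hm : Tendsto (fun n : ℕ => ⌊(n : ℝ) ^ a⌋₊) atTop atTop :=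
    tendsto_nat_floor_atTop.comp (tendsto_pow ha0)
  have hev : ∀ᶠ n : ℕ in atTop, False := by
    filter_upwards [hm.eventually h1, (tendsto_pow ha0).eventually_ge_atTop (K1 + 1),
      (tendsto_pow ha1).eventually_ge_atTop K1, (tendsto_pow ha1).eventually_ge_atTop K2,
      (tendsto_pow h2a).eventually_ge_atTop (2 * K1), eventually_ge_atTop ⌈K2⌉₊]
      with n hn1 hn2 hn3 hn4 hn5 hn6
    have hKn : K2 ≤ n := Nat.ceil_le.1 hn6
    have hn0 : (0 : ℝ) < n := by linarith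
    set x : ℝ := (n : ℝ) ^ a with hx
    set m : ℕ := ⌊x⌋₊ with hmdef
    have hx0 : 0 < x := by positivity
    have hmx : (m : ℝ) ≤ x := Nat.floor_le hx0.le
    have hmx' : x < m + 1 := Nat.lt_floor_add_one x
    have e1 : (n : ℝ) ^ (1 - a) * x = n := by
      rw [hx, ← Real.rpow_add hn0]
      have : 1 - a + a = 1 := by ring
      rw [this, Real.rpow_one]
    have e2 : (n : ℝ) ^ (2 * a - (β - 1)) * (n : ℝ) ^ (β - 1) = x * x := by
      rw [hx, ← Real.rpow_add hn0, ← Real.rpow_add hn0]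
      congr 1; ring
    have hP : P true x n (1 / 4) := by
      have h3 := hn1 (!true)
      rw [Real.rpow_one] at h3
      have h4 := hK1 true m n (m : ℝ) x (ε * (J + 1)) (by linarith) ?_ (by linarith)
        (by positivity) hmx ?_ ?_ (by positivity) h3
      · have e3 : ε * (J + 1) + ε = 1 / 4 := by
          rw [hε]; field_simp; ring
        rwa [e3] at h4
      · nlinarith
      · nlinarith
      · have hnp : 0 < (n : ℝ) ^ (β - 1) := by positivity
        have hm2 : x / 2 ≤ m := by linarith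
        have e4 : 2 * K1 * (n : ℝ) ^ (β - 1) ≤ x * x := by
          rw [← e2]; exact mul_le_mul_of_nonneg_right hn5 hnp.le
        nlinarith
    exact hK2 true n x hKn hx0 (by nlinarith) hP
  exact (hev.exists).elim fun _ h => h

end Pool.Agent.Helper54Exc.H81
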